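import Mathlib
import Pool.Agent.Lib.helper23.Munn

set_option autoImplicit false

namespace Pool.Agent.Results.MP_2e14e4_lc.Main

open Set Topology Filter TopologicalSpace Pool.Agent.Lib.helper23
open Ell1 FSAlg Munn

section
variable (P : Type) [NonUnitalNormedRing P] [NormedSpace ℂ P]

/-- Two-sided ideals of an algebra. -/
def IsIdeal (I : Submodule ℂ P) : Prop := ∀ a, ∀ x ∈ I, a * x ∈ I ∧ x * a ∈ I

/-- The closed two-sided ideals. -/
def Idl : Type := {K : Submodule ℂ P // IsClosed (K : Set P) ∧ IsIdeal P K}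

/-- The Wijsman topology. -/
noncomputable instance : TopologicalSpace (Idl P) :=
  .induced (fun K x => Metric.infDist x (K.1 : Set P)) inferInstance

/-- The quotient by the ideal is simple. -/
def Simple (K : Idl P) : Prop :=
  ∀ b ∉ K.1, ∀ I : Submodule ℂ P, IsIdeal P I → K.1 ≤ I → b ∈ I → Dense (I : Set P)

/-- Every separable Banach algebra is a quotient. -/
def Gen : Prop :=
  ∀ (B : Type) [NonUnitalNormedRing B] [NormedSpace ℂ B] [IsScalarTower ℂ B B]
    [SMulCommClass ℂ B B] [CompleteSpace B] [SeparableSpace B],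
    ∃ φ : P →L[ℂ] B, Function.Surjective φ ∧ ∀ a b, φ (a * b) = φ a * φ b

end

theorem fam (x : ℕ → ℕ) : ∃ K : Idl P,
    (∀ q : P, Metric.infDist q K.1 = ‖∑' w, q w • v x w‖) ∧
    (Simple P K ↔ BddAbove (range x)) := by
  classical
  obtain ⟨φ, p1, p2, p3⟩ := lift (K := ℂ) (v x) (nv x)
  obtain ⟨m, m1, m2, m3⟩ := exm'
  have p4 : ∀ a b : P, φ (a * b) = m (φ a) (φ b) := hom φ m fun s t => by
    simp only [p2, v, map_mul, map_smul, ContinuousLinearMap.smul_apply, m1, smul_smul]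
    generalize FreeSemigroup.lift (g x) s = s
    generalize FreeSemigroup.lift (g x) t = t
    change (s.1 * t.1 * p s.2.2 t.2.1) • e ℂ (s.2.1, t.2.2) = _
    congr 1
    ring
  let A : ℕ → Prop := fun a => ∃ n, a < x n
  have a1 : ∀ a b, A a → A b → ∃ n, a < x n ∧ b < x n := fun a b ⟨n, h⟩ ⟨k, l⟩ =>
    (le_total (x n) (x k)).elim (fun c => ⟨k, by omega⟩) fun c => ⟨n, by omega⟩
  obtain ⟨σ, s1, s2, -⟩ := lift (K := ℂ) (fun i : ℕ × ℕ => if h : ∃ n, i.1 < x n ∧ i.2 < x n then
    e ℂ (FreeSemigroup.of (i.1, i.2, h.choose)) else 0) fun i => by split_ifs <;> simp [norm_e]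
  have s3 : ∀ a b, A a → A b → φ (σ (e ℂ (a, b))) = e ℂ (a, b) := fun a b h k => by
    rw [s2, dif_pos (a1 a b h k), p2, v, FreeSemigroup.lift_of, g, if_pos (a1 a b h k).choose_spec,
      one_smul]
  have q : ∀ w, (FreeSemigroup.lift (g x) w).1 = 0 ∨ A (FreeSemigroup.lift (g x) w).2.1 ∧
      A (FreeSemigroup.lift (g x) w).2.2 := nl (fun t : T => t.1 = 0 ∨ A t.2.1 ∧ A t.2.2)
    (fun a b h k => h.elim (fun h => .inl (by change _ * _ * _ = 0; simp [h])) fun h =>
      k.elim (fun k => .inl (by change _ * _ * _ = 0; simp [k])) fun k => .inr ⟨h.1, k.2⟩) _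
    fun i => by
      by_cases c : i.1 < x i.2.2 ∧ i.2.1 < x i.2.2
      exacts [.inr ⟨⟨_, c.1⟩, _, c.2⟩, .inl (if_neg c)]
  have s4 : ∀ r, φ (σ (φ r)) = φ r := fun r => congr($(ext (S := φ.comp (σ.comp φ)) (T := φ)
    fun w => by
      simp only [ContinuousLinearMap.comp_apply, p2, v, map_smul]
      rcases q w with c | c
      · simp [c]
      · rw [s3 _ _ c.1 c.2]) r)
  have s5 : ∀ r a b, ¬ (A a ∧ A b) → φ r (a, b) = 0 := fun r a b h =>
    congr($(ext (S := (lp.evalCLM ℂ (fun _ => ℂ) 1 (a, b)).comp φ) (T := 0) fun w => by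
      change φ _ (a, b) = 0
      rcases q w with c | c
      · simp [p2, v, c]
      · simp only [p2, v, lp.coeFn_smul, Pi.smul_apply, e_apply]
        rw [if_neg fun d => h (by rwa [← d] at c), smul_zero]) r)
  have n1 : ∀ r, ‖φ r‖ ≤ ‖r‖ := fun r => (φ.le_of_opNorm_le p1 r).trans_eq (one_mul _)
  refine ⟨⟨φ.ker, φ.isClosed_ker, fun a r (h : φ r = 0) => ⟨(p4 a r).trans (by simp [h]),
    (p4 r a).trans (by simp [h])⟩⟩, fun r => ?_, fun h => by_contra fun c => ?_,
    fun ⟨N, hN⟩ b (hb : φ b ≠ 0) I i1 i2 i3 => ?_⟩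
  · rw [← p3]
    refine le_antisymm ((Metric.infDist_le_dist_of_mem (y := r - σ (φ r))
      (show φ _ = 0 by simp [s4])).trans ?_) ((Metric.le_infDist ⟨0, zero_mem _⟩).2
        fun y (h : φ y = 0) => by simpa [h, dist_eq_norm] using n1 (r - y))
    change dist r (r - σ (φ r)) ≤ _
    simpa using σ.le_of_opNorm_le s1 (φ r)
  · have a2 : ∀ a, A a := fun a => by simpa using not_bddAbove_iff.1 c a
    have s6 : ∀ y, φ (σ y) = y := fun y => congr($(ext (S := φ.comp σ) (T := .id ℂ Y)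
      fun i => s3 _ _ (a2 _) (a2 _)) y)
    let y : Y := ⟨fun i => if i.2 = 0 then (1 / 2) ^ i.1 else 0, memℓp_gen (by
      refine ((Prod.mk_left_injective 0).summable_iff fun i hi => ?_).1 ?_
      · simp [show i.2 ≠ 0 from fun d => hi ⟨i.1, Prod.ext rfl d.symm⟩]
      · simpa [Function.comp_def] using summable_geometric_two)⟩
    have y1 : ∀ i : ℕ × ℕ, y i = if i.2 = 0 then (1 / 2) ^ i.1 else 0 := fun _ => rfl
    have y2 : m.flip y = 0 := ext fun ⟨c, d⟩ => lp.ext (funext fun ⟨a, b⟩ => by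
      simp only [ContinuousLinearMap.flip_apply, m2, y1]
      split_ifs <;> simp [pow_succ, div_eq_mul_inv])
    let I : Submodule ℂ P := ⨅ r : P, (φ.comp (mm r)).ker
    have i0 : ∀ z : P, z ∈ I ↔ ∀ r : P, φ (r * z) = 0 := fun z => Submodule.mem_iInf _
    have i1 : IsClosed (I : Set P) := by
      rw [Submodule.coe_iInf]
      exact isClosed_iInter fun r => (φ.comp (mm r)).isClosed_ker
    have := (i0 (σ (e ℂ (0, 0)))).1 (i1.closure_subset (h (σ y) (fun d : φ _ = 0 => by
      simpa [s6, y1] using congr($d (0, 0))) I (fun a z k => ⟨(i0 _).2 fun r => by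
        rw [← mul_assoc]; exact (i0 _).1 k _, (i0 _).2 fun r => by
        rw [← mul_assoc, p4, (i0 _).1 k]; simp⟩) (fun z (k : φ z = 0) => (i0 _).2 fun r => by
        simp [p4, k]) ((i0 _).2 fun r => by rw [p4, s6]; exact congr($y2 (φ r))) _))
      (σ (e ℂ (0, 0)))
    simpa [p4, s6, m1, p, e_apply] using congr($this (0, 0))
  have a3 : ∀ a b, b ≤ a → A a → A b := fun a b h ⟨n, k⟩ => ⟨n, by omega⟩
  have l : ∀ r : P, φ r ≠ 0 → A 0 ∧ (∃ d, φ (σ (e ℂ (0, d)) * r :) ≠ 0) ∧
      ∃ f, φ (r * σ (e ℂ (f, 0)) :) ≠ 0 := fun r hr => by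
    have z : A 0 := by_contra fun c => hr (lp.ext (funext fun ⟨a, b⟩ =>
      s5 r a b fun d => c (a3 _ _ a.zero_le d.1)))
    refine ⟨z, by_contra fun c => hr (lp.ext (funext fun ⟨a, b⟩ => ?_)),
      by_contra fun c => hr (lp.ext (funext fun ⟨a, b⟩ => ?_))⟩ <;> push Not at c
    · have : ∀ j d, N ≤ d + j → φ r (d, b) = 0 := fun j => by
        induction j with
        | zero => exact fun d h => s5 r d b fun ⟨⟨n, k⟩, _⟩ => by have := hN ⟨n, rfl⟩; omega
        | succ j ih =>
          intro d h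
          by_contra k
          have := congr($(c d) (0, b))
          rw [p4, s3 _ _ z (not_not.1 fun u => k (s5 r d b fun t => u t.1)), m2,
            ih (d + 1) (by omega)] at this
          exact k (by simpa using this)
      exact this N a (by omega)
    · induction b with
      | zero => simpa [p4, s3 _ _ z z, m3] using congr($(c 0) (a, 0))
      | succ f ih =>
        by_contra k
        have := congr($(c (f + 1)) (a, 0))
        rw [p4, s3 _ _ (not_not.1 fun u => k (s5 r a _ fun t => u t.2)) z, m3] at this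
        exact k (by simpa [show φ r (a, f) = 0 from ih] using this)
  obtain ⟨z, ⟨d, hd⟩, -⟩ := l b hb
  obtain ⟨-, -, f, hf⟩ := l _ hd
  have hI := (i1 (σ (e ℂ (f, 0))) _ (i1 (σ (e ℂ (0, d))) _ i3).1).2
  have u : ∀ i : ℕ × ℕ, ¬ (A i.1 ∧ A i.2) → σ (e ℂ i) = 0 := fun i h => by
    rw [s2, dif_neg fun ⟨n, k⟩ => h ⟨⟨n, k.1⟩, n, k.2⟩]
  have hd' : A d := by_contra fun c => hd (by rw [u (0, d) fun t => c t.2]; simp [p4])
  have hf' : A f := by_contra fun c => hf (by rw [u (f, 0) fun t => c t.1]; simp [p4])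
  obtain ⟨t, ht⟩ : ∃ t : ℂ, φ ((σ (e ℂ (0, d)) * b :) * σ (e ℂ (f, 0)) :) = t • e ℂ (0, 0) :=
    ⟨φ ((σ (e ℂ (0, d)) * b :) * σ (e ℂ (f, 0)) :) (0, 0), lp.ext (funext fun ⟨a, c⟩ => by
      simp only [lp.coeFn_smul, Pi.smul_apply, e_apply, Prod.mk.injEq]
      split_ifs with k
      · simp [k]
      · simp only [p4, s3 _ _ z hd', s3 _ _ hf' z, m3, m2]
        split_ifs <;> simp_all)⟩
  have t0 : t ≠ 0 := fun c => hf (by simp [ht, c])
  generalize (σ (e ℂ (0, d)) * b : P) * σ (e ℂ (f, 0)) = r at hI ht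
  have w : ∀ i, σ (e ℂ i) ∈ I.topologicalClosure := fun ⟨c, g⟩ => by
    by_cases k : A c ∧ A g
    · refine I.le_topologicalClosure ((I.sub_mem_iff_left (I.smul_mem (4 / t) (i1 (σ (e ℂ (0, g))) _
        (i1 (σ (e ℂ (c, 0))) _ hI).1).2)).1 (i2 (show φ _ = 0 from ?_)))
      rw [map_sub, map_smul, p4, p4, ht, s3 _ _ k.1 k.2, s3 _ _ k.1 z, s3 _ _ z k.2]
      simp only [map_smul, ContinuousLinearMap.smul_apply, m1, smul_smul, p, if_true]
      rw [sub_eq_zero, show 4 / t * (t * (1 / 2) * (1 / 2)) = 1 by field_simp; norm_num, one_smul]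
    · rw [u _ k]; exact zero_mem _
  exact fun r => (I.topologicalClosure.sub_mem_iff_left (mem (T := σ)
    I.isClosed_topologicalClosure w (φ r))).1 (I.le_topologicalClosure (i2 (show φ _ = 0 by
      simp [s4])))

theorem cs (q : P) : Continuous fun x : ℕ → ℕ => ∑' w, q w • v x w :=
  continuous_tsum (u := fun w => ‖q w‖) (fun w => (cv w).const_smul (q w)) (hs q).summable
    fun w x => by
      rw [norm_smul]; exact mul_le_of_le_one_right (norm_nonneg _) (nv _ _)

theorem result : ∃ (P : Type) (_ : NonUnitalNormedRing P) (_ : NormedSpace ℂ P),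
    IsScalarTower ℂ P P ∧ SMulCommClass ℂ P P ∧ CompleteSpace P ∧ SeparableSpace P ∧ Gen P ∧
      ¬ IsGδ {K : Idl P | Simple P K} := by
  refine ⟨P, inferInstance, inferInstance, tower, comm, inferInstance, sep, gen, fun h => ?_⟩
  choose K k1 k2 using fam
  have c : Continuous K := continuous_induced_rng.2 (continuous_pi fun q =>
    (cs q).norm.congr fun x => (k1 x q).symm)
  have d : ∀ (x : ℕ → ℕ) (N : ℕ), Tendsto (fun k n => if n < k then x n else N) atTop (𝓝 x) :=
    fun x N => tendsto_pi_nhds.2 fun n => tendsto_nhds_of_eventually_eq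
      ((eventually_gt_atTop n).mono fun k h => if_pos h)
  have r1 := residual_of_dense_Gδ (h.preimage c) fun x => mem_closure_of_tendsto (d x 0)
    (Eventually.of_forall fun k => (k2 _).2 <| (((finite_Iio k).image x).insert 0).bddAbove.mono (by
      rintro _ ⟨n, rfl⟩
      dsimp only
      split_ifs with a
      exacts [.inr ⟨n, a, rfl⟩, .inl rfl]))
  have r2 : ∀ᶠ x : ℕ → ℕ in residual _, ∀ N, ∃ n, N < x n := eventually_countable_forall.2 fun N =>
    residual_of_dense_open (by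
      simp only [setOf_exists]
      exact isOpen_iUnion fun n => isOpen_lt continuous_const (continuous_apply n))
      fun x => mem_closure_of_tendsto (d x (N + 1)) (Eventually.of_forall fun k => ⟨k, by simp⟩)
  obtain ⟨x, x1, x2⟩ := (dense_of_mem_residual (inter_mem r1 r2)).nonempty
  obtain ⟨N, hN⟩ := (k2 x).1 x1
  obtain ⟨n, hn⟩ := x2 N
  exact hn.not_ge (hN ⟨n, rfl⟩)

end Pool.Agent.Results.MP_2e14e4_lc.Main
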